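import Pool.Agent.N879.GD.Stm
import Pool.Agent.H581R3.GPR.Rot

/-! Project GZ (helper260), package GF (helper580): closed form of `GG`. -/

set_option autoImplicit false

namespace Pool.Agent.U580.GZ

open Complex Filter Topology MeasureTheory Set
open Pool.Agent.N879.GD

theorem t_GF : S_GF := by
  intro b T x ω hb hT
  have hTne : (T : ℂ) ≠ 0 := by exact_mod_cast hT.ne'
  constructor
  · have h := integrableOn_rpow_mul_exp_neg_mul_rpow (p := 1) (s := (b : ℝ) - 1) (b := T⁻¹)
      (by have : (1 : ℝ) ≤ b := by exact_mod_cast hb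
          linarith) one_pos (by positivity)
    have h2 := h.const_mul ((T ^ b)⁻¹)
    refine IntegrableOn.congr_fun h2 ?_ measurableSet_Ioi
    intro u hu
    have hu' : (0 : ℝ) < u := hu
    simp only
    rw [Real.rpow_one, Real.rpow_sub hu', Real.rpow_natCast, Real.rpow_one, div_pow]
    have : -T⁻¹ * u = -(u / T) := by field_simp
    rw [this]
    field_simp
  · set a : ℂ := (b : ℂ) - I * ω with ha
    set r : ℂ := (T : ℂ)⁻¹ - I * x with hr
    have har : 0 < a.re := by
      have : a.re = b := by simp [ha]
      rw [this]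
      exact_mod_cast hb
    have hrr : 0 < r.re := by
      have : r.re = T⁻¹ := by
        rw [hr, ← Complex.ofReal_inv]
        simp
      rw [this]
      positivity
    have hr0 : r ≠ 0 := by
      intro h
      rw [h] at hrr
      simp at hrr
    have key := Pool.Agent.H581R3.GPR.Rot.rot_formula (a := a) (r := r) har hrr
    have h1 : (1 / r) ^ a = cexp (-a * Complex.log r) := by
      rw [Complex.cpow_def_of_ne_zero (by simpa using hr0), one_div, Complex.log_inv]
      · congr 1; ring
      · intro h
        rw [Complex.arg_eq_pi_iff] at h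
        linarith [h.1]
    unfold GG
    have h2 : ∫ u in Ioi (0 : ℝ), (((u / T) ^ b * Real.exp (-(u / T)) / u : ℝ) : ℂ) *
        cexp (I * ((u * x - ω * Real.log u : ℝ) : ℂ)) =
        ∫ u in Ioi (0 : ℝ), ((T : ℂ) ^ b)⁻¹ * ((u : ℂ) ^ (a - 1) * cexp (-(r * u))) := by
      refine setIntegral_congr_fun measurableSet_Ioi ?_
      intro u hu
      have hu' : (0 : ℝ) < u := hu
      have hu0 : (u : ℂ) ≠ 0 := by exact_mod_cast hu'.ne'
      simp only
      have h3 : (u : ℂ) ^ (a - 1) = (u : ℂ) ^ b / u * cexp (-(I * ω * Real.log u)) := by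
        rw [Complex.cpow_sub _ _ hu0, Complex.cpow_one, ha, Complex.cpow_sub _ _ hu0,
          Complex.cpow_natCast, Complex.cpow_def_of_ne_zero hu0 (I * ω), ← Complex.ofReal_log hu'.le,
          Complex.exp_neg]
        rw [show (Real.log u : ℂ) * (I * ω) = I * ω * Real.log u by ring]
        field_simp
      rw [h3]
      push_cast
      rw [div_pow]
      have h4 : cexp (I * ((u : ℂ) * x - ω * (Real.log u : ℂ))) =
          cexp (I * (u * x)) * cexp (-(I * ω * Real.log u)) := by
        rw [← Complex.exp_add]
        congr 1; ring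
      have h5 : cexp (-(r * u)) = cexp (-((u : ℂ) / T)) * cexp (I * (u * x)) := by
        rw [← Complex.exp_add, hr]
        congr 1
        field_simp
        ring
      rw [h4, h5]
      ring
    rw [h2, integral_const_mul, key, h1]
    ring

end Pool.Agent.U580.GZ
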